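import Mathlib
import Pool.Agent.H421R2.OV.All

/-!
# The ovals problem of Benguria and Loss for curves divided into certified arcs (MP_2801bd_mp)

`e(γ) ≥ 1` for every closed curve `γ` of length `2π` in `ℝⁿ` which is divided into finitely many
certified arcs: an explicit inequality between three points of each arc.

Proof (helper421; formalised with helpers 325, 513, 9, 515, 89, 514, 339, 844, 775, 477, 926, 347,
690, 333, 46, 534, 978, 195, 676).  Let `T` be the unit tangent, `e = T(p)`, `c = ⟪T, e⟫`,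
`x = ⟪γ - γ(p), e⟫`, `s` the arclength from `p`, `K > 0` the solution of
`∫₀¹ 2 dt/(t²+2Kt+1) = x / sin s` (`K = ∞` if `x ≤ 0`).  Then
`u = cot s - (1/(2 sin s)) ((1+c)²/(K+cos s) - (1-c)²/(K-cos s))`
is a subsolution of the Riccati equation, `u' + u² + 1 ≤ |T'|²`, with `u → 0` as `s → 0`; it is exact
for the ellipses `T ∥ cos s • e + k sin s • n`.  Hence the energy of `φ` on an arc starting at `p` is
at least `φ² u` at its end; the same backwards from the other end of the arc, and the two bounds are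
compared at a point `m` of the arc.
-/

set_option autoImplicit false

open scoped ContDiff

namespace Pool.Agent.H421R2.OV

/-- a full turn of `γ` is divided into finitely many certified arcs -/
def DividedCertified {n : ℕ} (γ : ℝ → EuclideanSpace ℝ (Fin n)) : Prop :=
  ∃ (N : ℕ) (p : ℕ → ℝ), p N = p 0 + 2 * Real.pi ∧
    ∀ i < N, Certified γ (deriv γ) (p i) (p (i + 1))

end Pool.Agent.H421R2.OV

namespace Pool.Agent.Results.MP_2801bd_mp.DividedOvals

open Pool.Agent.H421R2.OV

theorem result (n : ℕ) (γ : ℝ → EuclideanSpace ℝ (Fin n)) (hγ : ContDiff ℝ 2 γ)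
    (hper : Function.Periodic γ (2 * Real.pi)) (hT : ∀ s : ℝ, ‖deriv γ s‖ = 1)
    (h : DividedCertified γ)
    (φ : ℝ → ℝ) (hφ : ContDiff ℝ 1 φ) (hφper : Function.Periodic φ (2 * Real.pi)) :
    (∫ s in (0 : ℝ)..(2 * Real.pi), (φ s) ^ 2) ≤
      ∫ s in (0 : ℝ)..(2 * Real.pi),
        ((deriv φ s) ^ 2 + ‖deriv (deriv γ) s‖ ^ 2 * (φ s) ^ 2) :=
  chain f_FT n γ hγ hper hT h φ hφ hφper

end Pool.Agent.Results.MP_2801bd_mp.DividedOvals
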