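import Mathlib
import Pool.Agent.H421R2.OV.All
import Pool.Agent.H421R2.OV.TW5

/-!
# The ovals problem of Benguria and Loss for symmetric curves (MP_2801bd_mp)

`e(γ) ≥ 1` for every closed curve `γ` of length `2π` in `ℝⁿ` with a weighted pair: for some `p` the
unit tangents at `γ(p)` and `γ(p+π)` are parallel, and for some `L ∈ ℝ`, `a, b > 0` the components of
the unit tangent along `γ'(p)` on the two half turns have means zero with respect to the weights
`1/(a² (cos t + L sin t)² + sin² t)` and `1/(b² (cos t + L sin t)² + sin² t)`, `t = s - p`.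
The case `L = 0`, `a = b = 1` says that the chord `γ(p+π) - γ(p)` is orthogonal to the two parallel
tangents (`ParallelPair`); this holds for every curve with a mirror hyperplane, every plane curve of
constant width (and every centrally symmetric curve, a known case).

Proof (helper421; formalised with helpers 325, 513, 9, 515, 89, 514, 339, 844, 775, 477, 926, 347,
690, 333, 46, 534, 978, 195, 676).  Let `T` be the unit tangent, `e = T(p)`, `c = ⟪T, e⟫`,
`x = ⟪γ - γ(p), e⟫`, `s` the arclength from `p`, `K > 0` the solution of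
`∫₀¹ 2 dt/(t²+2Kt+1) = x / sin s` (`K = ∞` if `x ≤ 0`).  Then
`u = cot s - (1/(2 sin s)) ((1+c)²/(K+cos s) - (1-c)²/(K-cos s))`
is a subsolution of the Riccati equation, `u' + u² + 1 ≤ |T'|²`, with `u → 0` as `s → 0`; it is exact
for the ellipses `T ∥ cos s • e + k sin s • n`.  Hence the energy of `φ` on an arc starting at `p` is
at least `φ² u` at its end, and the two bounds from `p` and from `p + π` cancel at the midpoint.
For general weights: if `Q = A + B cos 2s + C sin 2s`, `A > 0`, `A² = 1 + B² + C²`, then `1/Q` has integral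
`π` over a half turn, and the change of parameter `dr = ds/Q` with `φ = √Q ψ` changes the energy of a
half turn only by boundary terms `[φ² Q'/(2Q)]`; they cancel if both half turns have the same `L`.
-/

set_option autoImplicit false

open scoped ContDiff

namespace Pool.Agent.H421R2.OV

/-- `γ` has parallel unit tangents at `p` and `p + π`, orthogonal to the chord. -/
def ParallelPair {n : ℕ} (γ : ℝ → EuclideanSpace ℝ (Fin n)) (p : ℝ) : Prop :=
  (deriv γ (p + Real.pi) = -deriv γ p ∨ deriv γ (p + Real.pi) = deriv γ p) ∧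
    inner ℝ (γ (p + Real.pi) - γ p) (deriv γ p) = 0

/-- a parallel pair is a weighted pair, with weights one -/
theorem ParallelPair.weighted {n : ℕ} {γ : ℝ → EuclideanSpace ℝ (Fin n)} (hγ : ContDiff ℝ 2 γ)
    (hper : Function.Periodic γ (2 * Real.pi)) {p : ℝ} (hp : ParallelPair γ p) :
    WeightedPair γ p := by
  obtain ⟨h1, h2⟩ := hp
  have hd : ∀ s, HasDerivAt γ (deriv γ s) s := fun s =>
    (hγ.differentiable (by norm_num)).differentiableAt.hasDerivAt
  have hc : Continuous (deriv γ) := hγ.continuous_deriv (by norm_num)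
  have key : ∀ u v : ℝ, ∫ s in u..v, inner ℝ (deriv γ s) (deriv γ p) /
      ((1:ℝ)^2 * (Real.cos (s - p) + 0 * Real.sin (s - p))^2 + Real.sin (s - p)^2)
      = inner ℝ (γ v - γ u) (deriv γ p) := by
    intro u v
    have e : ∀ s : ℝ, ((1:ℝ)^2 * (Real.cos (s - p) + 0 * Real.sin (s - p))^2
        + Real.sin (s - p)^2) = 1 := by
      intro s
      linarith [Real.sin_sq_add_cos_sq (s - p)]
    simp_rw [e, div_one]
    rw [inner_sub_left]
    refine intervalIntegral.integral_eq_sub_of_hasDerivAt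
      (f := fun s => inner ℝ (γ s) (deriv γ p)) ?_ ?_
    · intro s _
      have := (hd s).inner ℝ (hasDerivAt_const s (deriv γ p))
      simpa using this
    · exact (hc.inner continuous_const).intervalIntegrable _ _
  refine ⟨h1, 0, 1, 1, one_pos, one_pos, ?_, ?_⟩
  · rw [key, h2]
  · rw [key, hper p]
    have e : γ p - γ (p + Real.pi) = -(γ (p + Real.pi) - γ p) := by abel
    rw [e, inner_neg_left, h2, neg_zero]

/-- `γ` is symmetric in the hyperplane `⟪·, e⟫ = h`, the symmetry reversing the orientation: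
`γ(p - s)` is the mirror image of `γ(p + s)` for all `s`. -/
def MirrorSymmetric {n : ℕ} (γ : ℝ → EuclideanSpace ℝ (Fin n)) : Prop :=
  ∃ (e : EuclideanSpace ℝ (Fin n)) (h p : ℝ), ‖e‖ = 1 ∧
    ∀ s, γ (p - s) = γ (p + s) - (2 * (inner ℝ (γ (p + s)) e - h)) • e

/-- `γ` is a plane curve of turning number one (its unit tangent is `cos θ e₁ + sin θ e₂` for a
continuous `θ` with `θ(s + 2π) = θ(s) + 2π`) of constant width: the chord joining any two points with
opposite unit tangents is orthogonal to these tangents. -/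
def ConstantWidth {n : ℕ} (γ : ℝ → EuclideanSpace ℝ (Fin n)) : Prop :=
  (∃ (θ : ℝ → ℝ) (e₁ e₂ : EuclideanSpace ℝ (Fin n)), Continuous θ ∧
    (∀ s, θ (s + 2 * Real.pi) = θ s + 2 * Real.pi) ∧
    ∀ s, deriv γ s = Real.cos (θ s) • e₁ + Real.sin (θ s) • e₂) ∧
  ∀ s t, deriv γ t = -deriv γ s → inner ℝ (γ t - γ s) (deriv γ s) = 0

/-- a curve of constant width has a parallel pair -/
theorem ConstantWidth.parallelPair {n : ℕ} {γ : ℝ → EuclideanSpace ℝ (Fin n)}
    (h : ConstantWidth γ) : ∃ p : ℝ, ParallelPair γ p := by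
  obtain ⟨⟨θ, e₁, e₂, hθc, hθ, hT⟩, hw⟩ := h
  have hf : Continuous fun s => θ (s + Real.pi) - θ s - Real.pi := by fun_prop
  have hanti : θ (0 + Real.pi + Real.pi) - θ (0 + Real.pi) - Real.pi
      = -(θ (0 + Real.pi) - θ 0 - Real.pi) := by
    have h1 := hθ 0
    have h2 : (0 : ℝ) + Real.pi + Real.pi = 0 + 2 * Real.pi := by ring
    rw [h2, h1]; ring
  have hex : ∃ p, θ (p + Real.pi) - θ p - Real.pi = 0 := by
    rcases le_total (θ (0 + Real.pi) - θ 0 - Real.pi) 0 with h0 | h0
    · exact mem_range_of_exists_le_of_exists_ge hf ⟨0, h0⟩ ⟨0 + Real.pi, by rw [hanti]; linarith⟩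
    · exact mem_range_of_exists_le_of_exists_ge hf ⟨0 + Real.pi, by rw [hanti]; linarith⟩ ⟨0, h0⟩
  obtain ⟨p, hp⟩ := hex
  have hpT : deriv γ (p + Real.pi) = -deriv γ p := by
    have h1 : θ (p + Real.pi) = θ p + Real.pi := by linarith
    rw [hT, hT p, h1, Real.cos_add_pi, Real.sin_add_pi, neg_smul, neg_smul, neg_add]
  exact ⟨p, Or.inl hpT, hw p (p + Real.pi) hpT⟩

end Pool.Agent.H421R2.OV

namespace Pool.Agent.Results.MP_2801bd_mp.SymmetricOvals

open Pool.Agent.H421R2.OV

theorem result (n : ℕ) (γ : ℝ → EuclideanSpace ℝ (Fin n)) (hγ : ContDiff ℝ 2 γ)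
    (hper : Function.Periodic γ (2 * Real.pi)) (hT : ∀ s : ℝ, ‖deriv γ s‖ = 1)
    (h : (∃ p : ℝ, WeightedPair γ p) ∨ (∃ p : ℝ, ParallelPair γ p) ∨ MirrorSymmetric γ ∨
      ConstantWidth γ)
    (φ : ℝ → ℝ) (hφ : ContDiff ℝ 1 φ) (hφper : Function.Periodic φ (2 * Real.pi)) :
    (∫ s in (0 : ℝ)..(2 * Real.pi), (φ s) ^ 2) ≤
      ∫ s in (0 : ℝ)..(2 * Real.pi),
        ((deriv φ s) ^ 2 + ‖deriv (deriv γ) s‖ ^ 2 * (φ s) ^ 2) := by
  have key : (∃ p : ℝ, ParallelPair γ p) → (∫ s in (0 : ℝ)..(2 * Real.pi), (φ s) ^ 2) ≤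
      ∫ s in (0 : ℝ)..(2 * Real.pi),
        ((deriv φ s) ^ 2 + ‖deriv (deriv γ) s‖ ^ 2 * (φ s) ^ 2) := by
    rintro ⟨p, hp⟩
    exact W.closed f_H n γ hγ hper hT p (hp.weighted hγ hper) φ hφ hφper
  rcases h with ⟨p, hp⟩ | h | ⟨e, h, p, he, hm⟩ | h
  · exact W.closed f_H n γ hγ hper hT p hp φ hφ hφper
  · exact key h
  · exact key ⟨p, t_C2 n γ hγ hper hT e h p he hm⟩
  · exact key h.parallelPair

end Pool.Agent.Results.MP_2801bd_mp.SymmetricOvals
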